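import Mathlib
import Pool.Agent.Q64.L.ClThms
import Pool.Agent.Q64.L.InstC

/-!
# The Tate conjecture over finitely generated fields for the products of arbitrary varieties with
the abelian varieties of almost all slope types of all CM fields over finite fields

Let `K i` (`i` in a finite set) be CM fields of degree `2 g i`. Nothing is assumed about their
Galois groups. They are pairwise independent: for `i ≠ k` and all complex embeddings `φ` of `K i`
and `ψ` of `K k` some automorphism of `ℂ` is the identity on `φ (K i)` and the complex conjugation
on `ψ (K k)` (this is no condition if there is only one field). We fix an isomorphism `ν` of the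
algebraic closure of `ℚ_p` with `ℂ`; it defines a `p`-adic valuation of `ℂ`, with the value one at
`p`. Let `M i` be a function with nonzero integral values, all of which divide `n i`, on the
complex embeddings of `K i`, invariant under complex conjugation. A CM type `Φ i` of `K i` (a
choice of one element out of each complex conjugate pair of embeddings; there are `2 ^ (g i)`
types), `M i` and a real number `κ ≠ 0` prescribe the slopes `(a + κ M) / 2` (at the embeddings in
`Φ i`) and `(a - κ M) / 2` (outside of `Φ i`) of a Weil number for `p ^ a` in `K i` (`HasType`).
The case `M = 1`, `κ = a` is the case of ordinary abelian varieties; the assumption on `M` says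
that `a / 2` is not a slope.

There are `2 ^ (∑ i, g i)` families of CM types `Φ i` of the fields `K i`. A family is exceptional
(`exceptionalFamilies ν K M`) if the following statement (`Holds`) is false for it. Let `π i` be
Weil numbers for `q = p ^ a` that generate the fields `K i` and have the slope types `Φ i`, `M i`,
and let `f i` be monic polynomials whose complex roots are conjugates of `π i` (`IsPolyOf`), for
instance the characteristic polynomials of Frobenius of the abelian varieties in the isogeny
classes of the `π i` over the field with `q` elements. Let `A` be an abelian variety over the field
with `Q = q ^ s` elements which is isogenous to a product of powers of abelian varieties coming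
from the field with `q` elements, with characteristic polynomials `f i`. Let `k` be a finitely
generated field which contains the field with `Q` elements, and let `Z` be **any** smooth
projective variety over `k` with good reduction at a place of `k` with a residue field of `Q`
elements, such that the eigenvalues `ρ` of the Frobenius element of this **one** place on the
`ℓ`-adic cohomology of `Z` and their conjugates are unrelated to the fields `K i` (`UnrelatedTo`):
a function `n` on the complex embeddings of `K i` with `n (conj φ) = - n φ` which is invariant
under all automorphisms of `ℂ` that fix a power of `ρ` is zero. This is so if for each embedding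
`ψ` of `K i` some automorphism which fixes a power of `ρ` is the complex conjugation on `ψ (K i)`:
for instance, if a power of `ρ` lies in a field linearly disjoint from the normal closures of the
`K i`, or in a totally real field. It is also so if the degree of `ρ` is less than twice the
dimension of each nonzero space of functions `n` stable under all automorphisms of `ℂ`.

**For every `j` the group `A^j(A × Z)` is finitely generated and `A^j(A × Z) ⊗ ℚ_ℓ` is isomorphic
to the space of the Galois invariants in `H^(2 j)(j)`, if and only if the same is true for all the
groups `A^(j - k)(Z)`, `0 ≤ k ≤ dim A`** (`TateIso`; all three parts of the question: finite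
generation, injectivity and surjectivity). So the assertion of the question for `A × Z`, over the
field `k`, is equivalent to the assertion for `Z`. Nothing else is assumed on `Z`.

In the starting files there are theorems of this kind for the surjectivity alone
(`AllCMTypesTimesSmooth`, MP_2a05c8_ag, for the Galois invariants over all finite extensions). New
are the finite generation of `A^j` and the injectivity, with integral coefficients, over the field
`k` itself, one codimension at a time. Over a finite field, `k` may be the field with `Q` elements.

What is used of `A` are known theorems (`IsAbelian`): `H(A)` is generated by `H^1`, Frobenius is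
diagonalizable on `H^1` (Weil), the theorem of Tate on divisors, and the nilpotence of
homologically trivial correspondences (Kimura). The `ℓ`-adic cohomology `R` of `Z` and `A × Z` over
an algebraic closure of `k` is modelled by `RelData`, with the formal properties in `IsRel`:
degrees, products with classes on `A`, push-forward to `Z`, the projection formula, the operation
of the correspondences of `A`; `frobN` and `frobM` are the operations of the Frobenius element of
the place on `H(Z)`, and `InvN`, `InvM` are the elements on which the Frobenius element acts
through the Tate twist. `L` is the coefficient field. `IsClassData` collects the properties of the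
classes of cycles and of the invariants of the Galois group of `k`: products with classes on `A`
and push-forwards of classes of cycles (up to a common denominator) are classes of cycles, the same
for Galois invariants, as the classes on `A` are defined over the finite field.

The theorem bounds the number of the exceptional families: it is at most
`2 ^ (∑ i, g i) * ∑ i, C * (n i) ^ 2 * (1 + log (2 g i)) ^ 16 * min (N ^ 2 * D ^ (1 / 4) / √g, √g / q)`
with an absolute constant `C`. Here, for `K = K i` and `g = g i`, `N` is the number of the CM
subfields of `K` (with `K`), `D = D i ≥ 1` is a bound for the degrees of the CM subfields of `K`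
that are normal over `ℚ` with a nonabelian Galois group, and `q = q i` is any prime factor of `g`
(or `q = 1`). So the exceptional types are a proportion `O (n ^ 2 * g ^ (-1 / 4) * (log g) ^ 16)`
of all types of all CM fields with a bounded number of CM subfields,
`O (n ^ 2 * g ^ (-1 / 2) * (log g) ^ 16)` if the normal nonabelian ones have bounded degrees, and
`O (n ^ 2 * g ^ (-δ) * (log g) ^ 16)` for all CM fields, with any number of subfields, whose degree
is divisible by a prime number `q ≥ g ^ (1 / 2 + δ)`. Some assumption is necessary: almost all
types of a multiquadratic CM field are degenerate. The counting part (the bound for the number of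
the degenerate types) is the one of `AllCMFields` (MP_e12fcd_ag), by helper1 and others of this
team.

The proof. Suppose that the product of `ρ` and of some eigenvalues `φ (π i)` of `A`, no two of them
complex conjugate, is a power of `q`, up to a root of unity. For an automorphism `σ` of `ℂ` the
`p`-adic valuations of the images under `σ` give a linear relation between the signed weights
`± M i (σ φ)` whose right side is a function of the valuation of `σ ρ`. It does not change if `σ`
is multiplied by an automorphism `τ` which fixes a power of `ρ`. The difference of the two
relations is homogeneous; if the types are not degenerate it is trivial, so that the differences of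
the exponents of complex conjugate embeddings are invariant under `τ`. So they are zero, as `ρ` is
unrelated to the fields `K i`. It follows that, on the part of the cohomology of `A × Z` on which
the Frobenius element acts through the Tate twist, the correspondence on `A` given by the sum of
the products of dual classes of products of divisors acts as the identity: the Frobenius
endomorphism of `A` satisfies there the polynomial reciprocal to that of the Frobenius element on
`H(Z)`, this polynomial is prime to the one whose value on `H(A)` lies in the part generated by
divisors, and the difference of the two correspondences is nilpotent. So the Galois invariants of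
`A × Z`, and the classes of cycles (up to a common denominator), are the direct sums of the
products of finitely many products of divisors on `A` with those of `Z`.
-/

set_option autoImplicit false

namespace Pool.Agent.Results.MP_0fca13_ag.AllCMTypesTimesOverFields

open NumberField Module Pool.Agent.H204R3.CM Pool.Agent.H977R3.CM Pool.Agent.TH170
  Pool.Agent.Y1.KN Pool.Agent.Y1.CT Pool.Agent.Q64.L

/-- The statement `TateIsoReduces` holds for all abelian varieties `A` whose Frobenius eigenvalues
are powers of conjugates of Weil numbers with the slope types `Φ i`, `M i`, and all varieties
unrelated to the fields `K i`. -/
def Holds {p : ℕ} [Fact p.Prime] (ν : PadicAlgCl p ≃+* ℂ) {I : Type} (K : I → Type)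
    [∀ i, Field (K i)] [∀ i, NumberField (K i)] [∀ i, IsCMField (K i)]
    (M : ∀ i, (K i →+* ℂ) → ℤ) (Φ : ∀ i, Set (K i →+* ℂ)) : Prop :=
  ForAllTypes ν K M (fun q f => TateIsoReduces (UnrelatedRoots K) q f) Φ

/-- The exceptional families of CM types. -/
def exceptionalFamilies {p : ℕ} [Fact p.Prime] (ν : PadicAlgCl p ≃+* ℂ) {I : Type} (K : I → Type)
    [∀ i, Field (K i)] [∀ i, NumberField (K i)] [∀ i, IsCMField (K i)]
    (M : ∀ i, (K i →+* ℂ) → ℤ) : Set (∀ i, Set (K i →+* ℂ)) :=
  {Φ | (∀ i, IsCMType (Φ i)) ∧ ¬ Holds ν K M Φ}

/-- **The assertion of the question holds for `A × Z` if and only if it holds for `Z`, for the
abelian varieties `A` of almost all slope types of all CM fields and all unrelated varieties `Z`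
over finitely generated fields.** -/
theorem result :
    ∃ C : ℝ, 0 ≤ C ∧ ∀ (p : ℕ) [Fact p.Prime] (ν : PadicAlgCl p ≃+* ℂ) (I : Type) [Fintype I]
      (K : I → Type) [∀ i, Field (K i)] [∀ i, NumberField (K i)] [∀ i, IsCMField (K i)]
      (M : ∀ i, (K i →+* ℂ) → ℤ) (n g q : I → ℕ) (D : I → ℝ), PairwiseIndep K →
      (∀ i φ, M i (ComplexEmbedding.conjugate φ) = M i φ) → (∀ i, n i ≠ 0) →
      (∀ i φ, M i φ ∣ (n i : ℤ)) → (∀ i, finrank ℚ (K i) = 2 * g i) →
      (∀ i, q i ∣ g i ∧ (q i = 1 ∨ (q i).Prime)) → (∀ i, 1 ≤ D i) →
      (∀ (i : I) (L : IntermediateField ℚ (K i)), IsCMField L → IsGalois ℚ L →
        ¬ IsAbelianGalois ℚ L → (finrank ℚ L : ℝ) ≤ D i) →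
      ((exceptionalFamilies ν K M).ncard : ℝ) ≤
        2 ^ (∑ i, g i) * ∑ i, C * (n i : ℝ) ^ 2 * ((1 + Real.log (2 * g i)) ^ 16 *
          min ((numCMSubfields (K i) : ℝ) ^ 2 * D i ^ (1 / 4 : ℝ) / √(g i)) (√(g i) / q i)) := by
  obtain ⟨C, hC0, hC⟩ := countC
  refine ⟨C, hC0, ?_⟩
  intro p _ ν I _ K _ _ _ M n g q D hind hM hn hMn hg hq hD hDF
  exact hC p ν I K M n g q D hind hM hn hMn hg hq hD hDF _
    fun Q f hQ hG => tateIsoReduces hQ hG

end Pool.Agent.Results.MP_0fca13_ag.AllCMTypesTimesOverFields
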