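import Pool.Agent.Q126.TD.Mon
import Pool.Agent.TH115.TC.FamMain

/-!
# The Tate conjecture at 2 for almost all surfaces `y² = x³ + b₂ x² + b₁ x + b₀ + s h(t)²`

Let `n ≥ 0`. For integers `b₂, b₁, b₀`, `s`, `a₁, …, aₙ`, `c₁, …, cₙ` let `h` be the composite of the
quadratic polynomials `a₁ t² + c₁`, …, `aₙ t² + cₙ`, a polynomial of degree `2ⁿ`, and let `X` be the
elliptic surface over the projective line with the generic fibre

`E : y² = x³ + b₂ x² + b₁ x + b₀ + s h(t)²`.

Its geometric genus tends to infinity with `n`, and `E` has no points of order two over `F = k'(t)`.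

Theorem. Let `k` be a finitely generated field of characteristic zero. Among the vectors
`(b₂, b₁, b₀, s, a₁, …, aₙ, c₁, …, cₙ)` of integers of absolute value at most `H`, the proportion of
those for which the Tate conjecture for divisors at the prime 2 over `k` holds for `E` (`TateAtTwo`)
tends to one as `H` tends to infinity.

`TateAtTwo` says that all the classes in `V₂ Sel(E / F)` which are fixed by the Galois group of `k`
come from `E(K)`, `K = k(t)`; as `Br(X ⊗ k') = Ш(E / F)` (Grothendieck), this is the Tate conjecture for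
divisors at the prime 2 on the elliptic surface `X`.

The proof: by `Pool.Agent.TH115.TC` it is sufficient that `g = x³ + b₂ x² + b₁ x + b₀` and the `n` cubic
polynomials `g + s γ²`, where `γ` is a critical value of `h`, are irreducible over `k`. By a theorem of
Cassels the field `k` can be embedded in `ℚ_p` for infinitely many primes `p`. For each of these
primes, a proportion of at least `1 / 72` of the cubic polynomials modulo `p` is irreducible; for fixed
`s, a₁, …, cₙ` modulo `p` the polynomials `g + s γ²` run through all the monic cubic polynomials.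
-/

set_option autoImplicit false

namespace Pool.Agent.Results.MP_0fca13_ag.AlmostAllQuadraticPullbacks

open Polynomial Filter Topology Pool.Agent.TH115.GD Pool.Agent.Q126.TD

/-- The indices of the parameters `b₀, b₁, b₂ | s | a₁, …, aₙ | c₁, …, cₙ`. -/
abbrev Idx (n : ℕ) : Type := Fin 3 ⊕ (Unit ⊕ (Fin n ⊕ Fin n))

/-- The list of the pairs `(aᵢ, cᵢ)`. -/
def maps {R : Type} {n : ℕ} (u : Unit ⊕ (Fin n ⊕ Fin n) → R) : List (R × R) :=
  List.ofFn fun i => (u (Sum.inr (Sum.inl i)), u (Sum.inr (Sum.inr i)))

/-- The polynomial `h` over `k`: `cq` is the composite of the quadratic polynomials `aᵢ t² + cᵢ`. -/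
noncomputable def inner {n : ℕ} (k : Type) [Field k] (v : Idx n → ℤ) : k[X] :=
  cq (maps fun j => ((v (Sum.inr j) : ℤ) : k))

/-- The curve `E : y² = x³ + b₂ x² + b₁ x + b₀ + s h(t)²` over `K = k(t)`. -/
noncomputable def curve {n : ℕ} (k K : Type) [Field k] [Field K] [Algebra k[X] K] (v : Idx n → ℤ) :
    WeierstrassCurve K :=
  ⟨0, algebraMap k[X] K (C (v (Sum.inl 2) : k)), 0, algebraMap k[X] K (C (v (Sum.inl 1) : k)),
    algebraMap k[X] K (C (v (Sum.inl 0) : k) + C (v (Sum.inr (Sum.inl ())) : k) * inner k v ^ 2)⟩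

/-- The parameters for which the Tate conjecture for divisors at the prime 2 holds for `E`. -/
def Good (n : ℕ) (k k' K F : Type) [Field k] [Field k'] [Algebra k k'] [Field K] [Algebra k[X] K]
    [Field F] [Algebra k'[X] F] [IsFractionRing k'[X] F] [Algebra K F] : Set (Idx n → ℤ) :=
  {v | TateAtTwo (F := F) k' (curve k K v)}

section crit

variable {R S : Type} [CommRing R] [CommRing S]

/-- The composite of quadratic polynomials over a ring. -/
noncomputable def cqR {R : Type} [CommRing R] : List (R × R) → R[X]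
  | [] => X
  | p :: l => (cqR l).comp (C p.1 * X ^ 2 + C p.2)

/-- The critical values over a ring. -/
noncomputable def critR {R : Type} [CommRing R] : List (R × R) → List R
  | [] => []
  | p :: l => (cqR l).eval p.2 :: critR l

theorem cqR_eq {k : Type} [Field k] (l : List (k × k)) : cq l = cqR l := by
  induction l with
  | nil => rfl
  | cons p l ih =>
    unfold cq cqR
    rw [ih]

theorem critR_eq {k : Type} [Field k] (l : List (k × k)) : crit l = critR l := by
  induction l with
  | nil => rfl
  | cons p l ih =>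
    unfold crit critR
    rw [ih, cqR_eq]

theorem map_cqR (φ : R →+* S) (l : List (R × R)) :
    (cqR l).map φ = cqR (l.map (Prod.map φ φ)) := by
  induction l with
  | nil => simp [cqR]
  | cons p l ih =>
    simp only [cqR, List.map_cons, Prod.map_fst, Prod.map_snd]
    rw [Polynomial.map_comp, ih]
    simp

theorem map_critR (φ : R →+* S) (l : List (R × R)) :
    (critR l).map φ = critR (l.map (Prod.map φ φ)) := by
  induction l with
  | nil => simp [critR]
  | cons p l ih =>
    simp only [critR, List.map_cons, Prod.map_snd]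
    rw [ih, ← map_cqR, eval_map, eval₂_at_apply]

theorem length_critR (l : List (R × R)) : (critR l).length = l.length := by
  induction l with
  | nil => rfl
  | cons p l ih => simp [critR, ih]

/-- A critical value. -/
noncomputable def gam (j : ℕ) (l : List (R × R)) : R := (critR l).getD j 0

theorem map_gam (φ : R →+* S) (j : ℕ) (l : List (R × R)) :
    φ (gam j l) = gam j (l.map (Prod.map φ φ)) := by
  unfold gam
  rw [← map_critR]
  conv_rhs => rw [← map_zero φ]
  rw [List.getD_map]

theorem exists_gam {l : List (R × R)} {γ : R} (h : γ ∈ critR l) :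
    ∃ j, j < l.length ∧ gam j l = γ := by
  obtain ⟨j, hj, e⟩ := List.getElem_of_mem h
  refine ⟨j, by rwa [length_critR] at hj, ?_⟩
  unfold gam
  rw [List.getD_eq_getElem _ _ hj, e]

theorem map_maps {n : ℕ} (φ : R →+* S) (u : Unit ⊕ (Fin n ⊕ Fin n) → R) :
    (maps fun j => φ (u j)) = (maps u).map (Prod.map φ φ) := by
  unfold maps
  rw [List.map_ofFn]
  rfl

omit [CommRing R] in
theorem length_maps {n : ℕ} (u : Unit ⊕ (Fin n ⊕ Fin n) → R) : (maps u).length = n := by
  unfold maps
  rw [List.length_ofFn]

/-- The shift of the coefficients. -/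
noncomputable def dl {n : ℕ} (j : ℕ) (u : Unit ⊕ (Fin n ⊕ Fin n) → R) : Fin (2 + 1) → R :=
  fun i => if i = 0 then u (Sum.inl ()) * gam j (maps u) ^ 2 else 0

theorem map_dl {n : ℕ} (φ : R →+* S) (j : ℕ) (u : Unit ⊕ (Fin n ⊕ Fin n) → R) (i : Fin (2 + 1)) :
    φ (dl j u i) = dl j (fun j => φ (u j)) i := by
  unfold dl
  by_cases hi : i = 0
  · rw [if_pos hi, if_pos hi, map_mul, map_pow, map_gam, map_maps]
  · rw [if_neg hi, if_neg hi, map_zero]

end crit

theorem mon_cb {k : Type} [Field k] (b : Fin (2 + 1) → k) : mon b = cb (b 2) (b 1) (b 0) := by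
  unfold mon pol cb
  rw [Fin.sum_univ_three]
  simp
  ring

theorem mon_shift {k : Type} [Field k] {n : ℕ} (b : Fin (2 + 1) → k) (j : ℕ)
    (u : Unit ⊕ (Fin n ⊕ Fin n) → k) : (mon fun i => b i + dl j u i) =
      cb (b 2) (b 1) (b 0) + C (u (Sum.inl ()) * gam j (maps u) ^ 2) := by
  rw [mon_cb]
  unfold cb dl
  rw [if_neg (by decide), if_neg (by decide), if_pos rfl]
  simp only [C_add]
  simp
  ring

/-- **The Tate conjecture at 2 for almost all surfaces `y² = x³ + b₂ x² + b₁ x + b₀ + s h(t)²`, where
`h` is a composite of `n` quadratic polynomials, over finitely generated fields.** -/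
theorem result (n : ℕ) {k k' K F : Type} [Field k] [CharZero k]
    (hk : ∃ s : Finset k, Subfield.closure (s : Set k) = ⊤) [Field k'] [Algebra k k'] [Field K]
    [Algebra k[X] K] [Field F] [Algebra k'[X] F] [IsFractionRing k'[X] F] [Algebra K F]
    (hT : IsTower k k' K F) :
    Tendsto (fun H : ℕ => ((Box (Idx n) H ∩ Good n k k' K F).ncard : ℝ) / (Box (Idx n) H).ncard)
      atTop (𝓝 1) := by
  classical
  -- the cubic polynomial `g`
  have h1 : Full {v : Idx n → ℤ | Irreducible
      (mon fun i : Fin (2 + 1) => ((v (Sum.inl i) : ℤ) : k))} := by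
    refine mon_full hk (m := 2) (Q := fun v i => v (Sum.inl i)) fun p _ _ => ?_
    refine ⟨_, uniform_shift (lam := Unit ⊕ (Fin n ⊕ Fin n)) (fun _ _ => 0), fun v i => ?_⟩
    rw [add_zero]
  -- the polynomials at the critical values
  have h2 : ∀ j : Fin n, Full {v : Idx n → ℤ | Irreducible (mon fun i : Fin (2 + 1) =>
      (((v (Sum.inl i) + dl j (fun j => v (Sum.inr j)) i : ℤ)) : k))} := by
    intro j
    refine mon_full hk (m := 2) (Q := fun v i => v (Sum.inl i) + dl j (fun j => v (Sum.inr j)) i)
      fun p _ _ => ?_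
    refine ⟨_, uniform_shift (lam := Unit ⊕ (Fin n ⊕ Fin n)) (dl j), fun v i => ?_⟩
    rw [Int.cast_add]
    congr 1
    exact map_dl (Int.castRingHom (ZMod p)) _ _ _
  have h3 := (Full.all h2).inter h1
  have h4 := (Full.all fun i : Fin n => ne_full (κ := Idx n)
    (Sum.inr (Sum.inr (Sum.inl i)))).inter (ne_full (κ := Idx n) (Sum.inr (Sum.inl ())))
  have h5 : Full (Good n k k' K F) := by
    refine (h3.inter h4).mono ?_
    rintro v ⟨⟨hv1, hv2⟩, hv3, hv4⟩
    have hcr : ∀ j : Fin n, Irreducible (mon fun i : Fin (2 + 1) =>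
      (((v (Sum.inl i) + dl j (fun j => v (Sum.inr j)) i : ℤ)) : k)) := fun j => Set.mem_iInter.1 hv1 j
    have ha : ∀ i : Fin n, v (Sum.inr (Sum.inr (Sum.inl i))) ≠ 0 := fun i => Set.mem_iInter.1 hv3 i
    have hs : v (Sum.inr (Sum.inl ())) ≠ 0 := hv4
    have hg : Irreducible (cb (v (Sum.inl 2) : k) (v (Sum.inl 1) : k) (v (Sum.inl 0) : k)) := by
      have := hv2
      change Irreducible (mon fun i : Fin (2 + 1) => ((v (Sum.inl i) : ℤ) : k)) at this
      rw [mon_cb] at this
      exact this
    have hno : ∀ r, (cb (v (Sum.inl 2) : k) (v (Sum.inl 1) : k) (v (Sum.inl 0) : k)).eval r ≠ 0 :=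
      fun r hr => not_root_of_irr hg (by rw [(cb_deg _ _ _).1]; norm_num) r hr
    refine fam_tate hT (two_ne_zero (α := k)) (l := maps fun j => ((v (Sum.inr j) : ℤ) : k))
      hg.separable (Int.cast_ne_zero.2 hs) (Or.inr hno) ?_ ?_
    · intro q hq
      unfold maps at hq
      rw [List.mem_ofFn] at hq
      obtain ⟨i, rfl⟩ := hq
      exact Int.cast_ne_zero.2 (ha i)
    · intro γ hγ
      rw [critR_eq] at hγ
      obtain ⟨j, hj, rfl⟩ := exists_gam hγ
      rw [length_maps] at hj
      have h6 := hcr ⟨j, hj⟩
      have e : (fun i : Fin (2 + 1) => (((v (Sum.inl i) + dl j (fun j => v (Sum.inr j)) i : ℤ)) : k)) =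
          fun i => ((v (Sum.inl i) : ℤ) : k) + dl j (fun j => ((v (Sum.inr j) : ℤ) : k)) i := by
        funext i
        rw [Int.cast_add]
        congr 1
        exact map_dl (Int.castRingHom k) _ _ _
      change Irreducible (mon fun i : Fin (2 + 1) =>
        (((v (Sum.inl i) + dl j (fun j => v (Sum.inr j)) i : ℤ)) : k)) at h6
      rw [e, mon_shift (fun i => ((v (Sum.inl i) : ℤ) : k)) j
        (fun j => ((v (Sum.inr j) : ℤ) : k))] at h6
      exact ⟨h6, h6.separable, fun r c e hr => absurd hr (hno r)⟩
  refine h5.congr fun H => ?_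
  rw [box_ncard]
  push_cast
  rfl

end Pool.Agent.Results.MP_0fca13_ag.AlmostAllQuadraticPullbacks
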