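import Mathlib
import Pool.Agent.Q64.L.ClThms
import Pool.Agent.Q64.L.InstA

/-!
# The Tate conjecture over finitely generated fields for the products of arbitrary varieties with
almost all abelian varieties over finite fields

Let `g i` (`i` in a finite set `I`) be positive integers, `r` an integer smaller than all the `g i`
and `E` a number field.  For a prime power `q` let `S i` be the set of the characteristic
polynomials of Frobenius of the ordinary abelian varieties of dimension `g i` over the field with
`q` elements, or of all abelian varieties of dimension `g i`, or any set in between.  By Weil,
Honda and Tate its elements correspond to the isogeny classes, the first set contains
`ordinaryWeilPolys q (g i)`, and the second one is contained in `weilPolys q (g i)`.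

For almost all families `f i` in `S i` (`AlmostAll`: with the exception of a proportion
`O (q ^ (-1 / 6) log q)`, the constant depending only on `g`, `r` and `E`) the following holds for
all `s > 0`, `Q = q ^ s`, all abelian varieties `A` over the field with `Q` elements which are
isogenous to products of powers of abelian varieties coming from the field with `q` elements, with
characteristic polynomials `f i`, all finitely generated fields `k` which contain the field with
`Q` elements, and **all** smooth projective varieties `Z` over `k` with good reduction at a place
of `k` with a residue field of `Q` elements, such that the eigenvalues of the Frobenius element of
this **one** place on the `ℓ`-adic cohomology of `Z` and their conjugates generate a group of rank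
at most `r` modulo the group of the numbers with a power in `E` (for `r = 0`: they have powers in
`E`).

**For every `j` the group `A^j(A × Z)` is finitely generated and `A^j(A × Z) ⊗ ℚ_ℓ` is isomorphic
to the space of the Galois invariants in `H^(2 j)(j)`, if and only if the same is true for all the
groups `A^(j - k)(Z)`, `0 ≤ k ≤ dim A`** (`TateIso`; all three parts of the question: finite
generation, injectivity and surjectivity). So the assertion of the question for `A × Z`, over the
field `k`, is equivalent to the assertion for `Z`. Nothing else is assumed on `Z`.

In the starting files there are theorems of this kind for the surjectivity alone
(`AllCMTypesTimesSmooth`, MP_2a05c8_ag, for the Galois invariants over all finite extensions). New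
are the finite generation of `A^j` and the injectivity, with integral coefficients, over the field
`k` itself, one codimension at a time. Over a finite field, `k` may be the field with `Q` elements.

What is used of `A` are known theorems (`IsAbelian`): `H(A)` is generated by `H^1`, Frobenius is
diagonalizable on `H^1` (Weil), the theorem of Tate on divisors, and the nilpotence of
homologically trivial correspondences (Kimura). The `ℓ`-adic cohomology `R` of `Z` and `A × Z` over
an algebraic closure of `k` is modelled by `RelData`, with the formal properties in `IsRel`:
degrees, products with classes on `A`, push-forward to `Z`, the projection formula, the operation
of the correspondences of `A`; `frobN` and `frobM` are the operations of the Frobenius element of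
the place on `H(Z)`, and `InvN`, `InvM` are the elements on which the Frobenius element acts
through the Tate twist. `L` is the coefficient field. `IsClassData` collects the properties of the
classes of cycles and of the invariants of the Galois group of `k`: products with classes on `A`
and push-forwards of classes of cycles (up to a common denominator) are classes of cycles, the same
for Galois invariants, as the classes on `A` are defined over the finite field.

The proof: by a sieve (helper521), which only uses the primes that split completely in the Galois
closure of `E` - these have positive density by the theorem of Chebotarev, formalized by helper401
- almost all families are such that each pair `α`, `q / α` of roots can be exchanged by a Galois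
automorphism which fixes all the other roots of all the `f i` and also all elements of `E`. It
follows that, on the part of the cohomology of `A × Z` on which the Frobenius element acts through
the Tate twist, the correspondence on `A` given by the sum of the products of dual classes of
products of divisors acts as the identity: the Frobenius endomorphism of `A` satisfies there the
polynomial reciprocal to that of the Frobenius element on `H(Z)`, this polynomial is prime to the
one whose value on `H(A)` lies in the part generated by divisors, and the difference of the two
correspondences is nilpotent. So the Galois invariants of `A × Z`, and the classes of cycles (up to
a common denominator), are the direct sums of the products of finitely many products of divisors on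
`A` with those of `Z`.
-/

set_option autoImplicit false

namespace Pool.Agent.Results.MP_0fca13_ag.AlmostAllTimesOverFields

open Pool.Agent.Y156.L Pool.Agent.Q64.L

/-- **The assertion of the question holds for `A × Z` if and only if it holds for `Z`, for almost
all abelian varieties `A` and all varieties `Z` over finitely generated fields of small Frobenius
rank.** -/
theorem result {I : Type} [Fintype I] (g : I → ℕ) (r : ℕ) (hr : ∀ i, r < g i)
    (E : IntermediateField ℚ ℂ) [FiniteDimensional ℚ E] :
    AlmostAll g fun q F => TateIsoReduces (RootsRank E r) q F :=
  countA g r hr E (fun q F => TateIsoReduces (RootsRank E r) q F) fun _ _ hq hG => tateIsoReduces hq hG

end Pool.Agent.Results.MP_0fca13_ag.AlmostAllTimesOverFields
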