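import Pool.Agent.Y103.Hk.Main2

/-!
# The Tate conjecture for varieties built from one piece of K3 type, over finite fields

Let `X` be a smooth projective variety over a finite field and let `T` be a part of `H^{2 b}(X)` on which
Frobenius acts (up to powers) by `q ^ b` times the conjugates of a number `α` in a CM field `E`, for example the
transcendental cohomology of a K3 surface or of a cubic fourfold of finite height, or the variable part of the
cohomology of the members of a family of varieties of K3 type. We assume the Tate conjecture for `X × X` in
one codimension (for K3 surfaces this is a theorem of Ito, Ito and Koshikawa), or multiplicity one and the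
Lefschetz standard conjecture for `X`.

A variety `Z` is *built from `n` copies* of this piece if its cohomology is spanned by the products of at most `n`
images of elements of `T` under algebraic correspondences from `X` to `Z`, and of classes of cycles. Examples are
the products of `n` copies of `X`, the Hilbert schemes of points of K3 surfaces, and the moduli spaces of sheaves
on K3 surfaces, whose cohomology is generated by the Künneth components of the Chern classes of a universal sheaf;
products of such varieties are again of this kind (`Pool.Agent.Y103.Hk.built_prod`).

We prove, for the varieties `Z` built from `n` copies, all three parts of Tate's assertion in all codimensions: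
surjectivity (with the semisimplicity of the eigenvalue `q ^ c` of Frobenius), injectivity, and finite generation; and
the equivalence of the Tate conjecture for `Z × U` and for `U` for very general varieties `U`, under numerical
conditions on the degree `2 d` of `E`, the local degree `m` of the place with positive slope, and `n`.
-/

set_option autoImplicit false

open CategoryTheory AlgebraicGeometry NumberField

universe u v

namespace Pool.Agent.Results.MP_0fca13_ag.BuiltFromKThreeType

open Pool.Agent.H914 Pool.Agent.H914.VarClass Pool.Agent.H914.VarClass.Obj
  Pool.Agent.H914.WeilCohomology Pool.Agent.W534 Pool.Agent.W517.K3 Pool.Agent.Y138.KC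
  Pool.Agent.Y103.Hk

/-- The numerical condition on the half degree `d` of the field, the local degree `m` and the number of copies `n`. -/
def Good (d m n : ℕ) : Prop :=
  d ≤ 11 ∧ ((n ≤ 3 ∧ (d, m) ∉ exceptionalPairs) ∨ (Odd m ∧ (d, m) ∉ exceptionalOddPairs) ∨
    (d.Prime ∧ n < d))

/-- Tate's assertion for `Z` over the finite field and all its finite extensions: in all codimensions `c` the generalised
eigenspaces of the Frobenius endomorphisms for the eigenvalue `q ^ c` in `H^{2 c}(Z)` are spanned by classes of cycles,
and classes of cycles which are linearly independent over `ℚ` are linearly independent over the field of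
coefficients (so their group has finite rank). -/
def TateAssertion {k : Type u} [Field k] {𝒱 : VarClass k} {ops : CycleOps 𝒱}
    {W : WeilCohomology.{u, v} ops} {p : ℕ} (Φ : FrobSystem W p) (Z : 𝒱.Obj) : Prop :=
  (∀ c, SemisimpleTateIn Φ Z c) ∧ InjectiveCycleMap W Z

/-- The Tate conjecture for `Z × U` in codimension `c` is equivalent to the Tate conjecture for `U` in the codimensions
`c - i` for which there is a cycle of codimension `i` on `Z` which is not homologically trivial, for all `c`; and the same
with semisimplicity. -/
def TransfersTo {k : Type u} [Field k] {𝒱 : VarClass k} {ops : CycleOps 𝒱}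
    {W : WeilCohomology.{u, v} ops} {p : ℕ} (Φ : FrobSystem W p) (Z U : 𝒱.Obj) : Prop :=
  ∀ c, (TateIn Φ (Z.prod U) c ↔ ∀ i ≤ c, HasCycle W Z i → TateIn Φ U (c - i)) ∧
    (SemisimpleTateIn Φ (Z.prod U) c ↔ ∀ i ≤ c, HasCycle W Z i → SemisimpleTateIn Φ U (c - i))

/-- **The Tate conjecture for the varieties built from one piece of K3 type.** -/
theorem result {k : Type u} [Field k] {𝒱 : VarClass k} {ops : CycleOps 𝒱}
    (W : WeilCohomology.{u, v} ops) [IsAlgClosed W.K] (p : ℕ) [Fact p.Prime]
    (Φ : FrobSystem W p) (ι : AlgebraicClosure ℚ →+* PadicAlgCl p) (X Z : 𝒱.Obj)
    (E : Type) [Field E] [NumberField E] [IsCMField E] (b e n a d : ℕ) (α : E) (he : 0 < e)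
    (hα : IsK3Frobenius p a α) (hd : Module.finrank ℚ E = 2 * d)
    (hgood : Good d (localDegree p α) n)
    (hX : TateIn Φ (X.prod X) (2 * b) ∨ SimpleLefschetz Φ X b e α)
    (hZ : IsBuiltFrom Φ X b e α n Z) :
    TateAssertion Φ Z ∧
      ∀ L : IntermediateField ℚ (AlgebraicClosure ℚ), IsIndependentField E L →
        ∀ U : 𝒱.Obj, SlopesIn Φ ι L U → TransfersTo Φ Z U := by
  obtain ⟨h1, h2, h3⟩ := Pool.Agent.Y103.Hk.main (ι := ι) hα he hd hgood hX hZ
  exact ⟨⟨h1, h2⟩, fun L hL U hU c => h3 L hL U hU c⟩

end Pool.Agent.Results.MP_0fca13_ag.BuiltFromKThreeType
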